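import Mathlib

/-!
Gonality-tight graphs whose first gonality is the number of vertices: the case in which every
partition of the vertex set into three nonempty classes has at least `|V| + 2` crossing edges.
-/

namespace Pool.Agent.Results.MP_05a226_co.CutThree

open Finset

/-- A loopless multigraph on `V`: `m v w` is the number of edges between `v` and `w`. -/
structure MG (V : Type) where
  m : V → V → ℕ
  symm : ∀ v w, m v w = m w v
  loopless : ∀ v, m v v = 0

variable {V : Type} [Fintype V] [DecidableEq V]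

/-- The change of the divisor when each vertex `v` is fired `f v` times. -/
def MG.lap (G : MG V) (f : V → ℤ) (v : V) : ℤ := ∑ w, (G.m v w : ℤ) * (f w - f v)

/-- Linear equivalence of divisors. -/
def MG.LinEquiv (G : MG V) (D D' : V → ℤ) : Prop := ∃ f : V → ℤ, ∀ v, D' v = D v + G.lap f v

/-- The degree of a divisor. -/
def deg (D : V → ℤ) : ℤ := ∑ v, D v

/-- Effective divisors. -/
def Effective (D : V → ℤ) : Prop := ∀ v, 0 ≤ D v

/-- Divisors equivalent to an effective one. -/
def MG.Winnable (G : MG V) (D : V → ℤ) : Prop := ∃ D' : V → ℤ, G.LinEquiv D D' ∧ Effective D'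

/-- `D - E` is winnable for every effective `E` of degree `r`. -/
def MG.RankGE (G : MG V) (D : V → ℤ) (r : ℕ) : Prop :=
  ∀ E : V → ℤ, Effective E → deg E = r → G.Winnable (fun v => D v - E v)

open Classical in
/-- The Baker-Norine rank. -/
noncomputable def MG.rk (G : MG V) (D : V → ℤ) : ℤ :=
  if G.Winnable D then ((sSup {r : ℕ | G.RankGE D r} : ℕ) : ℤ) else -1

/-- The `k`-th gonality: the least degree of a divisor of rank `k`. -/
noncomputable def MG.gon (G : MG V) (k : ℕ) : ℕ :=
  sInf {d : ℕ | ∃ D : V → ℤ, G.rk D = k ∧ deg D = d}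

/-- One chip on every vertex and one extra chip on `v`. -/
def Dv (v : V) : V → ℤ := fun w => 1 + (if w = v then 1 else 0)

/-- Twice the number of edges between different classes of the partition `p`
(each edge is counted once from each of its ends). -/
def MG.cross (G : MG V) (p : V → Fin 3) : ℕ := ∑ v, ∑ w, if p v = p w then 0 else G.m v w

/-! ### Basic facts -/

lemma lap_zero (G : MG V) (v : V) : G.lap (fun _ => 0) v = 0 := by
  simp [MG.lap]

lemma sum_lap (G : MG V) (f : V → ℤ) : ∑ v, G.lap f v = 0 := by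
  have h : ∑ v, G.lap f v = ∑ v, ∑ w, (G.m v w : ℤ) * (f v - f w) := by
    unfold MG.lap
    rw [Finset.sum_comm]
    refine Finset.sum_congr rfl fun v _ => Finset.sum_congr rfl fun w _ => ?_
    rw [G.symm w v]
  have h2 : ∑ v, ∑ w, (G.m v w : ℤ) * (f v - f w) = - ∑ v, G.lap f v := by
    unfold MG.lap
    rw [← Finset.sum_neg_distrib]
    refine Finset.sum_congr rfl fun v _ => ?_
    rw [← Finset.sum_neg_distrib]
    refine Finset.sum_congr rfl fun w _ => ?_
    ring
  rw [h2] at h
  linarith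

lemma lap_add (G : MG V) (f g : V → ℤ) (v : V) :
    G.lap (fun w => f w + g w) v = G.lap f v + G.lap g v := by
  unfold MG.lap
  rw [← Finset.sum_add_distrib]
  refine Finset.sum_congr rfl fun w _ => ?_
  ring

lemma lap_neg (G : MG V) (f : V → ℤ) (v : V) :
    G.lap (fun w => - f w) v = - G.lap f v := by
  unfold MG.lap
  rw [← Finset.sum_neg_distrib]
  refine Finset.sum_congr rfl fun w _ => ?_
  ring

/-- If `h ≥ g + a` everywhere with equality at `v`, then `lap h v ≥ lap g v`. -/
lemma lap_mono (G : MG V) (g h : V → ℤ) (a : ℤ) (v : V) (hv : h v = g v + a)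
    (hge : ∀ w, g w + a ≤ h w) : G.lap g v ≤ G.lap h v := by
  unfold MG.lap
  refine Finset.sum_le_sum fun w _ => ?_
  have h1 := hge w
  have h0 : (0 : ℤ) ≤ G.m v w := by positivity
  apply mul_le_mul_of_nonneg_left _ h0
  linarith

lemma LinEquiv.symm {G : MG V} {D D' : V → ℤ} (h : G.LinEquiv D D') : G.LinEquiv D' D := by
  obtain ⟨f, hf⟩ := h
  refine ⟨fun w => - f w, fun v => ?_⟩
  rw [lap_neg, hf v]
  ring

lemma LinEquiv.trans {G : MG V} {D D' D'' : V → ℤ} (h : G.LinEquiv D D')
    (h' : G.LinEquiv D' D'') : G.LinEquiv D D'' := by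
  obtain ⟨f, hf⟩ := h
  obtain ⟨g, hg⟩ := h'
  refine ⟨fun w => f w + g w, fun v => ?_⟩
  rw [lap_add, hg v, hf v]
  ring

lemma LinEquiv.sub {G : MG V} {D D' : V → ℤ} (h : G.LinEquiv D D') (E : V → ℤ) :
    G.LinEquiv (fun v => D v - E v) (fun v => D' v - E v) := by
  obtain ⟨f, hf⟩ := h
  refine ⟨f, fun v => ?_⟩
  simp only [hf v]
  ring

lemma LinEquiv.deg_eq {G : MG V} {D D' : V → ℤ} (h : G.LinEquiv D D') : deg D' = deg D := by
  obtain ⟨f, hf⟩ := h
  unfold deg
  rw [Finset.sum_congr rfl fun v _ => hf v, Finset.sum_add_distrib, sum_lap]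
  ring

lemma winnable_of_equiv {G : MG V} {D D' : V → ℤ} (h : G.LinEquiv D D')
    (hw : G.Winnable D) : G.Winnable D' := by
  obtain ⟨D₁, h1, h2⟩ := hw
  exact ⟨D₁, LinEquiv.trans (LinEquiv.symm h) h1, h2⟩

lemma rankGE_of_equiv {G : MG V} {D D' : V → ℤ} (h : G.LinEquiv D D') {r : ℕ}
    (hw : G.RankGE D r) : G.RankGE D' r :=
  fun E hE hd => winnable_of_equiv (LinEquiv.sub h E) (hw E hE hd)

lemma rk_of_equiv {G : MG V} {D D' : V → ℤ} (h : G.LinEquiv D D') : G.rk D = G.rk D' := by
  have h1 : G.Winnable D ↔ G.Winnable D' :=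
    ⟨winnable_of_equiv h, winnable_of_equiv (LinEquiv.symm h)⟩
  have h2 : {r : ℕ | G.RankGE D r} = {r : ℕ | G.RankGE D' r} := by
    ext r
    exact ⟨rankGE_of_equiv h, rankGE_of_equiv (LinEquiv.symm h)⟩
  unfold MG.rk
  rw [h2]
  by_cases hw : G.Winnable D
  · rw [if_pos hw, if_pos (h1.1 hw)]
  · rw [if_neg hw, if_neg (fun h3 => hw (h1.2 h3))]

lemma rankGE_two_of_rk {G : MG V} {D : V → ℤ} (h : G.rk D = 2) : G.RankGE D 2 := by
  unfold MG.rk at h
  split_ifs at h with hw
  have hs : sSup {r : ℕ | G.RankGE D r} = 2 := by exact_mod_cast h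
  have hne : ({r : ℕ | G.RankGE D r}).Nonempty := by
    refine ⟨0, fun E hE hd => ?_⟩
    have hE0 : ∀ v, E v = 0 := by
      intro v
      have := (Finset.sum_eq_zero_iff_of_nonneg (fun v _ => hE v)).1
        (show ∑ v, E v = 0 by simpa [deg] using hd)
      exact this v (Finset.mem_univ v)
    have : (fun v => D v - E v) = D := by
      funext v
      rw [hE0 v]
      ring
    rw [this]
    exact hw
  have hbdd : BddAbove {r : ℕ | G.RankGE D r} := by
    by_contra hb
    rw [Nat.sSup_of_not_bddAbove hb] at hs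
    omega
  have hmem := Nat.sSup_mem hne hbdd
  rw [hs] at hmem
  exact hmem

/-! ### The covering argument -/

/-- `f` moves `D` to a divisor which is effective and at least one on `S`. -/
def Cov (G : MG V) (D : V → ℤ) (S : Finset V) (f : V → ℤ) : Prop :=
  ∀ v, (if v ∈ S then 1 else 0) ≤ D v + G.lap f v

lemma cov_of_rank {G : MG V} {D : V → ℤ} (h : G.RankGE D 2) (S : Finset V) (hS : S.card ≤ 2)
    (v₀ : V) : ∃ f, Cov G D S f := by
  set E : V → ℤ := fun v => (if v ∈ S then 1 else 0) +
    (if v = v₀ then ((2 - S.card : ℕ) : ℤ) else 0) with hE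
  have hEeff : Effective E := by
    intro v
    simp only [hE]
    split_ifs <;> positivity
  have hdeg : deg E = (2 : ℕ) := by
    simp only [deg, hE]
    rw [Finset.sum_add_distrib, Finset.sum_ite_eq' Finset.univ v₀]
    simp only [Finset.mem_univ, if_true]
    rw [Finset.sum_ite_mem, Finset.univ_inter, Finset.sum_const]
    simp only [smul_eq_mul, mul_one, nsmul_eq_mul]
    omega
  obtain ⟨D', ⟨f, hf⟩, hD'⟩ := h E hEeff hdeg
  refine ⟨f, fun v => ?_⟩
  have h1 := hf v
  have h2 := hD' v
  have h3 : (if v ∈ S then (1 : ℤ) else 0) ≤ E v := by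
    simp only [hE]
    have : (0 : ℤ) ≤ (if v = v₀ then ((2 - S.card : ℕ) : ℤ) else 0) := by
      split_ifs <;> positivity
    linarith
  linarith

/-- Main step: no ties can be won by all three scripts. -/
lemma no_tie {G : MG V} {D : V → ℤ} {S : Finset V} (hS : ∀ f, ¬ Cov G D S f)
    {s : Fin 3 → V} (hs : Function.Injective s) {f : Fin 3 → V → ℤ}
    (hf : ∀ i, Cov G D (S.erase (s i)) (f i)) (a : Fin 3 → ℤ) :
    ∃ i, ∀ j, j ≠ i → f j (s i) + a j < f i (s i) + a i := by
  by_contra hcon
  push Not at hcon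
  set h : V → ℤ := fun v => Finset.univ.sup' Finset.univ_nonempty (fun i => f i v + a i) with hh
  have hle : ∀ i w, f i w + a i ≤ h w := fun i w =>
    Finset.le_sup' (fun i => f i w + a i) (Finset.mem_univ i)
  have hex : ∀ v, ∃ i, h v = f i v + a i := by
    intro v
    obtain ⟨i, -, hi⟩ := Finset.exists_mem_eq_sup' (s := (Finset.univ : Finset (Fin 3)))
      Finset.univ_nonempty (fun i => f i v + a i)
    exact ⟨i, hi⟩
  apply hS h
  intro v
  by_cases hv : ∃ i, v = s i
  · obtain ⟨i, rfl⟩ := hv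
    -- choose an index of the maximum different from `i`
    have : ∃ j, j ≠ i ∧ h (s i) = f j (s i) + a j := by
      obtain ⟨k, hk⟩ := hex (s i)
      by_cases hki : k = i
      · obtain ⟨j, hj, hj2⟩ := hcon i
        refine ⟨j, hj, le_antisymm ?_ (hle j (s i))⟩
        rw [hk, hki]
        exact hj2
      · exact ⟨k, hki, hk⟩
    obtain ⟨j, hj, hj2⟩ := this
    have h1 := hf j (s i)
    have h2 := lap_mono G (f j) h (a j) (s i) hj2 (fun w => hle j w)
    have h3 : (s i ∈ S.erase (s j)) ↔ s i ∈ S := by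
      rw [Finset.mem_erase]
      constructor
      · exact fun h => h.2
      · exact fun h => ⟨fun h4 => hj (hs h4).symm, h⟩
    simp only [h3] at h1
    linarith
  · obtain ⟨k, hk⟩ := hex v
    have h1 := hf k v
    have h2 := lap_mono G (f k) h (a k) v hk (fun w => hle k w)
    have h3 : (v ∈ S.erase (s k)) ↔ v ∈ S := by
      rw [Finset.mem_erase]
      constructor
      · exact fun h => h.2
      · exact fun h => ⟨fun h4 => hv ⟨k, h4⟩, h⟩
    simp only [h3] at h1
    linarith

/-- Potentials with `A j - A i ≤ 3 c i j - 1`. -/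
lemma exists_potential {G : MG V} {D : V → ℤ} {S : Finset V} (hS : ∀ f, ¬ Cov G D S f)
    {s : Fin 3 → V} (hs : Function.Injective s) {f : Fin 3 → V → ℤ}
    (hf : ∀ i, Cov G D (S.erase (s i)) (f i)) :
    ∃ A : Fin 3 → ℤ, ∀ i j, j ≠ i → 3 * f j (s i) + A j < 3 * f i (s i) + A i := by
  have key := no_tie hS hs hf
  set c : Fin 3 → Fin 3 → ℤ := fun i j => f i (s i) - f j (s i) with hc
  have key' : ∀ a0 a1 a2 : ℤ,
      (a1 - a0 < c 0 1 ∧ a2 - a0 < c 0 2) ∨ (a0 - a1 < c 1 0 ∧ a2 - a1 < c 1 2) ∨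
      (a0 - a2 < c 2 0 ∧ a1 - a2 < c 2 1) := by
    intro a0 a1 a2
    obtain ⟨i, hi⟩ := key ![a0, a1, a2]
    fin_cases i
    · left
      have h1 := hi 1 (by decide)
      have h2 := hi 2 (by decide)
      simp at h1 h2
      simp only [hc]
      constructor <;> linarith
    · right; left
      have h1 := hi 0 (by decide)
      have h2 := hi 2 (by decide)
      simp at h1 h2
      simp only [hc]
      constructor <;> linarith
    · right; right
      have h1 := hi 0 (by decide)
      have h2 := hi 1 (by decide)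
      simp at h1 h2
      simp only [hc]
      constructor <;> linarith
  have h01 : 1 ≤ c 0 1 + c 1 0 := by
    have := key' 0 (c 0 1) (- |c 2 0| )
    have h1 := le_abs_self (c 2 0)
    omega
  have h02 : 1 ≤ c 0 2 + c 2 0 := by
    have := key' 0 (- |c 1 0|) (c 0 2)
    have h1 := le_abs_self (c 1 0)
    omega
  have h12 : 1 ≤ c 1 2 + c 2 1 := by
    have := key' (- |c 0 1|) 0 (c 1 2)
    have h1 := le_abs_self (c 0 1)
    omega
  have h012 : 1 ≤ c 0 1 + c 1 2 + c 2 0 := by
    have := key' 0 (c 0 1) (c 0 1 + c 1 2)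
    omega
  have h021 : 1 ≤ c 0 2 + c 2 1 + c 1 0 := by
    have := key' 0 (c 0 2 + c 2 1) (c 0 2)
    omega
  refine ⟨![0, min (3 * c 0 1 - 1) (3 * c 0 2 + 3 * c 2 1 - 2),
    min (3 * c 0 2 - 1) (3 * c 0 1 + 3 * c 1 2 - 2)], ?_⟩
  intro i j hij
  have e01 : c 0 1 = f 0 (s 0) - f 1 (s 0) := rfl
  have e02 : c 0 2 = f 0 (s 0) - f 2 (s 0) := rfl
  have e10 : c 1 0 = f 1 (s 1) - f 0 (s 1) := rfl
  have e12 : c 1 2 = f 1 (s 1) - f 2 (s 1) := rfl
  have e20 : c 2 0 = f 2 (s 2) - f 0 (s 2) := rfl
  have e21 : c 2 1 = f 2 (s 2) - f 1 (s 2) := rfl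
  fin_cases i <;> fin_cases j <;> simp at hij ⊢ <;> omega

/-- Least index of the maximum. -/
def arg (a b c : ℤ) : Fin 3 := if b ≤ a ∧ c ≤ a then 0 else if c ≤ b then 1 else 2

lemma arg_max (g : Fin 3 → ℤ) (i : Fin 3) : g i ≤ g (arg (g 0) (g 1) (g 2)) := by
  unfold arg
  fin_cases i <;> simp only [Fin.mk_zero, Fin.mk_one, Fin.reduceFinMk] <;> split_ifs <;> omega

lemma arg_lt (g : Fin 3 → ℤ) (i : Fin 3) (hi : i < arg (g 0) (g 1) (g 2)) :
    g i < g (arg (g 0) (g 1) (g 2)) := by
  unfold arg at hi ⊢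
  fin_cases i <;> simp only [Fin.mk_zero, Fin.mk_one, Fin.reduceFinMk] at hi ⊢ <;>
    split_ifs at hi ⊢ <;> first | omega | (exfalso; revert hi; decide)

lemma arg_eq (g : Fin 3 → ℤ) (i : Fin 3) (hi : ∀ j, j ≠ i → g j < g i) :
    arg (g 0) (g 1) (g 2) = i := by
  by_contra hne
  have h1 := hi _ hne
  have h2 := arg_max g i
  omega

/-- The counting step. -/
lemma cross_le {G : MG V} {D : V → ℤ} {f : Fin 3 → V → ℤ} (hf : ∀ i v, 0 ≤ D v + G.lap (f i) v)
    (A : Fin 3 → ℤ) :
    ((G.cross fun v => arg (3 * f 0 v + A 0) (3 * f 1 v + A 1) (3 * f 2 v + A 2) : ℕ) : ℤ) ≤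
      2 * deg D := by
  set g : V → Fin 3 → ℤ := fun v i => 3 * f i v + A i with hg
  set p : V → Fin 3 := fun v => arg (g v 0) (g v 1) (g v 2) with hp
  set H : V → ℤ := fun v => g v (p v) with hH
  have h1 : ∀ v, ∑ w, (G.m v w : ℤ) * (g w (p w) - g w (p v)) ≤ 3 * D v + G.lap H v := by
    intro v
    have h2 : G.lap H v = 3 * G.lap (f (p v)) v +
        ∑ w, (G.m v w : ℤ) * (g w (p w) - g w (p v)) := by
      unfold MG.lap
      rw [Finset.mul_sum, ← Finset.sum_add_distrib]
      refine Finset.sum_congr rfl fun w _ => ?_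
      simp only [hH, hg]
      ring
    have h3 := hf (p v) v
    linarith
  have h2 : ∑ v, ∑ w, (G.m v w : ℤ) * (g w (p w) - g w (p v)) ≤ 3 * deg D := by
    calc ∑ v, ∑ w, (G.m v w : ℤ) * (g w (p w) - g w (p v))
        ≤ ∑ v, (3 * D v + G.lap H v) := Finset.sum_le_sum fun v _ => h1 v
      _ = 3 * deg D := by
        rw [Finset.sum_add_distrib, sum_lap, ← Finset.mul_sum]
        simp [deg]
  have h3 : ∑ v, ∑ w, (G.m v w : ℤ) * (g w (p w) - g w (p v)) =
      ∑ v, ∑ w, (G.m v w : ℤ) * (g v (p v) - g v (p w)) := by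
    rw [Finset.sum_comm]
    refine Finset.sum_congr rfl fun v _ => Finset.sum_congr rfl fun w _ => ?_
    rw [G.symm w v]
  have h4 : 3 * ((G.cross p : ℕ) : ℤ) ≤
      ∑ v, ∑ w, (G.m v w : ℤ) * (g w (p w) - g w (p v)) +
      ∑ v, ∑ w, (G.m v w : ℤ) * (g v (p v) - g v (p w)) := by
    unfold MG.cross
    push_cast
    rw [Finset.mul_sum, ← Finset.sum_add_distrib]
    refine Finset.sum_le_sum fun v _ => ?_
    rw [Finset.mul_sum, ← Finset.sum_add_distrib]
    refine Finset.sum_le_sum fun w _ => ?_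
    rw [← mul_add]
    have hm : (0 : ℤ) ≤ G.m v w := by positivity
    have hb1 : g w (p v) ≤ g w (p w) := arg_max (g w) (p v)
    have hb2 : g v (p w) ≤ g v (p v) := arg_max (g v) (p w)
    split_ifs with hpw
    · simp [hpw]
    · have hb3 : g w (p v) < g w (p w) ∨ g v (p w) < g v (p v) := by
        rcases lt_or_gt_of_ne hpw with hlt | hlt
        · left
          exact arg_lt (g w) (p v) hlt
        · right
          exact arg_lt (g v) (p w) hlt
      have hb4 : (3 : ℤ) ≤ g w (p w) - g w (p v) + (g v (p v) - g v (p w)) := by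
        have e1 : g w (p w) - g w (p v) + (g v (p v) - g v (p w)) =
            3 * (f (p w) w - f (p v) w + f (p v) v - f (p w) v) := by
          simp only [hg]
          ring
        have e2 : 0 < g w (p w) - g w (p v) + (g v (p v) - g v (p w)) := by
          rcases hb3 with h | h <;> linarith
        omega
      rw [mul_comm (3 : ℤ)]
      exact mul_le_mul_of_nonneg_left hb4 hm
  linarith

/-- If `r(D) ≥ 2` and every partition into three nonempty classes has more than `deg D` crossing
edges, then `D` is equivalent to a divisor with at least one chip on every vertex. -/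
theorem core {G : MG V} {D : V → ℤ} (hr : G.RankGE D 2)
    (hcut : ∀ p : V → Fin 3, Function.Surjective p → 2 * deg D < (G.cross p : ℤ)) :
    ∃ f, Cov G D Finset.univ f := by
  classical
  by_contra hcon
  push Not at hcon
  have hV : Nonempty V := by
    by_contra hne
    rw [not_nonempty_iff] at hne
    exact hcon (fun _ => 0) (fun v => (hne.false v).elim)
  obtain ⟨v₀⟩ := hV
  set F : Finset (Finset V) := Finset.univ.filter (fun S => ∀ f, ¬ Cov G D S f) with hF
  have hFne : F.Nonempty := ⟨Finset.univ, by simp [hF]; exact hcon⟩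
  obtain ⟨S, hSF, hSmin⟩ := Finset.exists_min_image F Finset.card hFne
  have hS : ∀ f, ¬ Cov G D S f := by
    rw [hF, Finset.mem_filter] at hSF
    exact hSF.2
  have hmin : ∀ T : Finset V, T.card < S.card → ∃ f, Cov G D T f := by
    intro T hT
    by_contra h
    push Not at h
    have := hSmin T (by rw [hF, Finset.mem_filter]; exact ⟨Finset.mem_univ _, h⟩)
    omega
  have hcard : 2 < S.card := by
    by_contra h
    obtain ⟨f, hf⟩ := cov_of_rank hr S (by omega) v₀
    exact hS f hf
  obtain ⟨a, ha, b, hb, c, hc, hab, hac, hbc⟩ := Finset.two_lt_card.1 hcard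
  set s : Fin 3 → V := ![a, b, c] with hs
  have hsinj : Function.Injective s := by
    intro i j hij
    fin_cases i <;> fin_cases j <;> simp [hs] at hij ⊢
    · exact hab hij
    · exact hac hij
    · exact hab hij.symm
    · exact hbc hij
    · exact hac hij.symm
    · exact hbc hij.symm
  have hsmem : ∀ i, s i ∈ S := by
    intro i
    fin_cases i
    · exact ha
    · exact hb
    · exact hc
  have hfex : ∀ i, ∃ f, Cov G D (S.erase (s i)) f := fun i =>
    hmin _ (Finset.card_erase_lt_of_mem (hsmem i))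
  choose f hf using hfex
  obtain ⟨A, hA⟩ := exists_potential hS hsinj hf
  have hf0 : ∀ i v, 0 ≤ D v + G.lap (f i) v := by
    intro i v
    have := hf i v
    have h0 : (0 : ℤ) ≤ (if v ∈ S.erase (s i) then 1 else 0) := by split_ifs <;> norm_num
    linarith
  have h1 := cross_le hf0 A
  have hsurj : Function.Surjective
      (fun v => arg (3 * f 0 v + A 0) (3 * f 1 v + A 1) (3 * f 2 v + A 2)) := by
    intro i
    refine ⟨s i, ?_⟩
    exact arg_eq (fun j => 3 * f j (s i) + A j) i (fun j hj => hA i j hj)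
  have h2 := hcut _ hsurj
  linarith

/-- A divisor of degree `|V| + 1` with at least one chip on every vertex is some `Dv v`. -/
lemma eq_Dv {D : V → ℤ} (h1 : ∀ v, 1 ≤ D v) (hd : deg D = (Fintype.card V : ℤ) + 1) :
    ∃ v, D = Dv v := by
  have hsum : ∑ v, (D v - 1) = 1 := by
    rw [Finset.sum_sub_distrib]
    simp only [Finset.sum_const, Finset.card_univ, nsmul_eq_mul, mul_one]
    unfold deg at hd
    rw [hd]
    ring
  have hex : ∃ v, D v - 1 ≠ 0 := by
    by_contra h
    push Not at h
    rw [Finset.sum_congr rfl fun v _ => h v] at hsum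
    simp at hsum
  obtain ⟨v, hv⟩ := hex
  refine ⟨v, ?_⟩
  have hv1 : 1 ≤ D v - 1 := by
    have := h1 v
    omega
  have hsplit := Finset.sum_erase_add Finset.univ (fun v => D v - 1) (Finset.mem_univ v)
  have hnn : ∀ w ∈ Finset.univ.erase v, 0 ≤ D w - 1 := fun w _ => by
    have := h1 w
    omega
  have hge : 0 ≤ ∑ w ∈ Finset.univ.erase v, (D w - 1) := Finset.sum_nonneg hnn
  have hz : ∑ w ∈ Finset.univ.erase v, (D w - 1) = 0 := by
    rw [hsum] at hsplit
    omega
  have hDv : D v - 1 = 1 := by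
    rw [hsum] at hsplit
    omega
  funext w
  unfold Dv
  by_cases hw : w = v
  · subst hw
    simp
    omega
  · rw [if_neg hw]
    have := (Finset.sum_eq_zero_iff_of_nonneg hnn).1 hz w
      (Finset.mem_erase.2 ⟨hw, Finset.mem_univ w⟩)
    omega

/-- Let `G` be a finite loopless multigraph on `V`, gonality-tight with `gon_1(G) = |V|`, such that
every partition of `V` into three nonempty classes has at least `|V| + 2` crossing edges. Then some
`D_v` realises the second gonality, and every divisor which realises it is equivalent to some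
`D_v`. -/
theorem result (V : Type) [Fintype V] [DecidableEq V] (G : MG V)
    (hcut : ∀ p : V → Fin 3, Function.Surjective p → 2 * (Fintype.card V + 2) ≤ G.cross p)
    (htight : G.gon 2 = G.gon 1 + 1) (hgon : G.gon 1 = Fintype.card V) :
    (∃ v, G.rk (Dv v) = 2 ∧ deg (Dv v) = G.gon 2) ∧
    ∀ D : V → ℤ, G.rk D = 2 → deg D = G.gon 2 → ∃ v, G.LinEquiv D (Dv v) := by
  have hg2 : G.gon 2 = Fintype.card V + 1 := by rw [htight, hgon]
  have main : ∀ D : V → ℤ, G.rk D = 2 → deg D = G.gon 2 → ∃ v, G.LinEquiv D (Dv v) := by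
    intro D hD hdeg
    have hdeg' : deg D = (Fintype.card V : ℤ) + 1 := by rw [hdeg, hg2]; push_cast; ring
    obtain ⟨f, hf⟩ := core (rankGE_two_of_rk hD) (by
      intro p hp
      have := hcut p hp
      rw [hdeg']
      have h2 : ((2 * (Fintype.card V + 2) : ℕ) : ℤ) ≤ (G.cross p : ℤ) := by exact_mod_cast this
      push_cast at h2
      linarith)
    set D' : V → ℤ := fun v => D v + G.lap f v with hD'
    have he : G.LinEquiv D D' := ⟨f, fun v => rfl⟩
    have h1 : ∀ v, 1 ≤ D' v := by
      intro v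
      have := hf v
      simpa using this
    obtain ⟨v, hv⟩ := eq_Dv h1 (by rw [LinEquiv.deg_eq he, hdeg'])
    exact ⟨v, by rw [← hv]; exact he⟩
  refine ⟨?_, main⟩
  have hne : ({d : ℕ | ∃ D : V → ℤ, G.rk D = ((2 : ℕ) : ℤ) ∧ deg D = d}).Nonempty := by
    by_contra h
    rw [Set.not_nonempty_iff_eq_empty] at h
    have : G.gon 2 = 0 := by
      unfold MG.gon
      rw [h, Nat.sInf_empty]
    omega
  obtain ⟨D, hD, hdeg⟩ := Nat.sInf_mem hne
  have hdeg2 : deg D = G.gon 2 := hdeg
  obtain ⟨v, hv⟩ := main D (by exact_mod_cast hD) hdeg2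
  refine ⟨v, ?_, ?_⟩
  · rw [← rk_of_equiv hv]
    exact_mod_cast hD
  · rw [LinEquiv.deg_eq hv, hdeg2]

end Pool.Agent.Results.MP_05a226_co.CutThree
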